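import Pool.Agent.H85.Rect.Extra

set_option autoImplicit false

/-!
# Regular rectifiable spaces which are not Tychonoff

In each cardinality at least that of the continuum (and in each universe) there is a rectifiable
space which is regular but not completely regular.
-/

namespace Pool.Agent.Results.MP_7db8f6_gt.RegularNotTychonoff

universe u

/-- `X` is rectifiable: there are a point `e` and a homeomorphism `φ` of `X × X` onto itself which
maps each `{x} × X` onto itself and each `(x, x)` to `(x, e)`. -/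
def IsRectifiable (X : Type u) [TopologicalSpace X] : Prop :=
  ∃ (e : X) (φ : (X × X) ≃ₜ (X × X)),
    (∀ x : X, φ '' ({x} ×ˢ Set.univ) = {x} ×ˢ Set.univ) ∧ ∀ x : X, φ (x, x) = (x, e)

/-- `X` is regular: it is `T₁` (each singleton is closed), and every point can be separated from
any closed set not containing it by disjoint open sets. -/
def IsRegular (X : Type u) [TopologicalSpace X] : Prop :=
  (∀ x : X, IsClosed ({x} : Set X)) ∧
    ∀ (x : X) (F : Set X), IsClosed F → x ∉ F →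
      ∃ U V : Set X, IsOpen U ∧ IsOpen V ∧ x ∈ U ∧ F ⊆ V ∧ Disjoint U V

/-- `X` is Tychonoff: it is `T₁`, and for every point `x` and closed set `F` not containing it
there is a continuous `f : X → [0, 1]` which is `0` at `x` and `1` on `F`. -/
def IsTychonoff (X : Type u) [TopologicalSpace X] : Prop :=
  (∀ x : X, IsClosed ({x} : Set X)) ∧
    ∀ (x : X) (F : Set X), IsClosed F → x ∉ F →
      ∃ f : X → ℝ, Continuous f ∧ (∀ y, 0 ≤ f y ∧ f y ≤ 1) ∧ f x = 0 ∧ ∀ y ∈ F, f y = 1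

theorem result (κ : Cardinal.{u}) (hκ : Cardinal.continuum ≤ κ) :
    ∃ (X : Type u) (_ : TopologicalSpace X),
      Cardinal.mk X = κ ∧ IsRectifiable X ∧ IsRegular X ∧ ¬ IsTychonoff X ∧
      (∀ x y : X, x ≠ y → ∃ U : Set X, IsClosed U ∧ IsOpen U ∧ x ∈ U ∧ y ∉ U) ∧
      ∀ x : X, ∃ F : Set X, IsClosed F ∧ x ∉ F ∧
        ∀ f : X → ℝ, Continuous f → ∀ c : ℝ, (∀ y ∈ F, f y = c) → f x = c := by
  obtain ⟨α, rfl⟩ : ∃ α : Type u, Cardinal.mk α = κ := ⟨κ.out, κ.mk_out⟩
  letI : TopologicalSpace (α →₀ ZMod 2) := ⊥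
  haveI : DiscreteTopology (α →₀ ZMod 2) := ⟨rfl⟩
  have hgl := H85.Rect.gluedG (G := α →₀ ZMod 2)
  refine ⟨H85.Rect.St H85.Rect.Site × (α →₀ ZMod 2), inferInstance,
    H85.Rect.mk_prod_St α hκ, ?_, ?_, ?_, ?_, hgl⟩
  · refine ⟨(H85.Rect.St.zero, 0), H85.Rect.phiG, fun x => ?_, H85.Rect.phiG_diag⟩
    ext q
    simp only [Set.mem_image, Set.mem_prod, Set.mem_singleton_iff, Set.mem_univ, and_true]
    constructor
    · rintro ⟨p, hp, rfl⟩
      rw [H85.Rect.phiG_fst]; exact hp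
    · intro hq
      refine ⟨H85.Rect.phiG.symm q, ?_, Homeomorph.apply_symm_apply _ q⟩
      rw [← H85.Rect.phiG_fst, Homeomorph.apply_symm_apply]
      exact hq
  · refine ⟨fun x => isClosed_singleton, fun x F hF hx => ?_⟩
    obtain ⟨V, hV, U, hU, h⟩ := Filter.disjoint_iff.1 (RegularSpace.regular hF hx)
    obtain ⟨V', h1, h2, h3⟩ := mem_nhdsSet_iff_exists.1 hV
    obtain ⟨U', h4, h5, h6⟩ := mem_nhds_iff.1 hU
    exact ⟨U', V', h5, h1, h6, h2, (h.mono h3 h4).symm⟩
  · rintro ⟨_, h⟩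
    obtain ⟨F, hF, hx, h1⟩ := hgl (H85.Rect.St.zero, 0)
    obtain ⟨f, hf, _, h2, h3⟩ := h _ F hF hx
    have h4 := h1 f hf 1 h3
    rw [h2] at h4
    exact zero_ne_one h4
  · intro x y hne
    obtain ⟨U, hU, h1, h2⟩ := H85.Rect.exists_clopenG hne
    exact ⟨U, hU.isClosed, hU.isOpen, h1, h2⟩

end Pool.Agent.Results.MP_7db8f6_gt.RegularNotTychonoff
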